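import Mathlib

namespace Pool.Agent.Results.MP_4bc86c_co.NoRainbow

open SimpleGraph

/-- Proper edge-colouring of the complete graph on `V`. -/
def Proper {V C : Type} (c : Sym2 V → C) : Prop :=
  ∀ x y z : V, x ≠ y → x ≠ z → y ≠ z → c s(x, y) ≠ c s(x, z)

/-- Number of colours used on the edges. -/
noncomputable def used {V C : Type} (c : Sym2 V → C) : ℕ :=
  (c '' (⊤ : SimpleGraph V).edgeSet).ncard

/-- Proper, with the least possible number of colours. -/
def Optimal {V C : Type} (c : Sym2 V → C) : Prop :=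
  Proper c ∧ ∀ (C' : Type) (c' : Sym2 V → C'), Proper c' → used c ≤ used c'

theorem aux (K : Type) [Field K] [Fintype K] [CharP K 2] (h : 8 ≤ Fintype.card K) :
    ∃ c : Sym2 K → K, Optimal c ∧ ∀ (v : K) (p : (⊤ : SimpleGraph K).Walk v v),
      p.length = Fintype.card K - 2 → ¬ (p.edges.map c).Nodup := by
  classical
  let c : Sym2 K → K := Sym2.lift ⟨fun x y => x + y, fun x y => add_comm x y⟩
  have hc : ∀ x y, c s(x, y) = x + y := fun _ _ => rfl
  have hne : ∀ e ∈ (⊤ : SimpleGraph K).edgeSet, c e ≠ 0 := by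
    intro e he
    induction e using Sym2.ind with
    | _ x y =>
      rw [hc]; intro h0
      exact (by simpa using he : x ≠ y) (CharTwo.add_eq_zero.1 h0)
  refine ⟨c, ⟨fun x y z _ _ h3 h4 => h3 (add_left_cancel h4), fun C' c' hc' => ?_⟩, ?_⟩
  · have h1 : used c ≤ ({0}ᶜ : Set K).ncard :=
      Set.ncard_le_ncard (by rintro _ ⟨e, he, rfl⟩; exact hne e he) (Set.toFinite _)
    refine h1.trans (Set.ncard_le_ncard_of_injOn (fun y => c' s(0, y)) ?_ ?_ (Set.toFinite _))
    · intro y hy; exact ⟨s(0, y), by simpa using Ne.symm hy, rfl⟩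
    · intro y hy z hz hyz
      by_contra hh
      exact hc' 0 y z (Ne.symm hy) (Ne.symm hz) hh hyz
  · intro v p hl hn
    have hs : ∀ (a b : K) (q : (⊤ : SimpleGraph K).Walk a b), (q.edges.map c).sum = a + b := by
      intro a b q
      induction q with
      | nil => simp [CharTwo.add_self_eq_zero]
      | @cons a b d _ q ih =>
        rw [Walk.edges_cons, List.map_cons, List.sum_cons, ih, hc]
        linear_combination (CharTwo.add_self_eq_zero b)
    have h0 := hs v v p
    have h00 := List.sum_toFinset (fun x : K => x) hn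
    rw [List.map_id', h0, CharTwo.add_self_eq_zero] at h00
    set s := (p.edges.map c).toFinset
    have hcard : s.card = Fintype.card K - 2 := by
      rw [List.toFinset_card_of_nodup hn, List.length_map, Walk.length_edges, hl]
    have h0s : (0 : K) ∈ sᶜ := by
      simp only [s, Finset.mem_compl, List.mem_toFinset, List.mem_map, not_exists, not_and]
      exact fun e he => hne e (p.edges_subset_edgeSet he)
    have hc2 : (sᶜ.erase 0).card = 1 := by
      rw [Finset.card_erase_of_mem h0s, Finset.card_compl, hcard]; omega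
    obtain ⟨a, ha⟩ := Finset.card_eq_one.1 hc2
    have ha0 : a ≠ 0 := (Finset.mem_erase.1 (ha ▸ Finset.mem_singleton_self a)).1
    have tot := FiniteField.sum_pow_lt_card_sub_one K 1 (by omega)
    simp only [pow_one] at tot
    rw [← Finset.sum_add_sum_compl s, h00, ← Finset.add_sum_erase _ _ h0s, ha] at tot
    simp at tot
    exact ha0 tot

theorem result (k : ℕ) (hk : 3 ≤ k) :
    ∃ (V C : Type) (_ : Fintype V) (c : Sym2 V → C), Fintype.card V = 2 ^ k ∧ Optimal c ∧
      ∀ (v : V) (p : (⊤ : SimpleGraph V).Walk v v), p.IsCycle → p.length = 2 ^ k - 2 →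
        ¬ (p.edges.map c).Nodup := by
  let _ : Fintype (GaloisField 2 k) := Fintype.ofFinite _
  have hc : Fintype.card (GaloisField 2 k) = 2 ^ k := by
    rw [← Nat.card_eq_fintype_card, GaloisField.card 2 k (by omega)]
  obtain ⟨c, h1, h2⟩ := aux (GaloisField 2 k)
    (hc ▸ (Nat.pow_le_pow_right (by norm_num) hk : 2 ^ 3 ≤ 2 ^ k))
  exact ⟨_, _, inferInstance, c, hc, h1, fun v p _ hl => h2 v p (hc ▸ hl)⟩

end Pool.Agent.Results.MP_4bc86c_co.NoRainbow
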